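import Mathlib
import Pool.Agent.KS6_49.L8.Helper941.Hyp.Fin39

set_option autoImplicit false
set_option maxHeartbeats 400000

namespace Pool.Agent.Y670.HI

open Encodable Denumerable Nat.Partrec Pool.Agent.Helper941 Pool.Agent.Helper941.IsoProb
open Pool.Agent.Helper941.Zeta Pool.Agent.Helper941.Dim Pool.Agent.Helper941.Hyp

/-- the predicate given by a finite list of nodes with parities -/
def PL (l : List (ℕ × Bool)) (p : ℕ) : Prop := (p.unpair.1, par p.unpair.2) ∈ l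

def act (t : ℕ → ℕ) (l : List (ℕ × Bool)) : List (ℕ × Bool) :=
  l.map fun q => (q.1, q.2 ^^ par (t q.1))

theorem pl_sh {l : List (ℕ × Bool)} {t : ℕ → ℕ} {p : ℕ} : PL l (sh t p) ↔ PL (act t l) p := by
  unfold PL act
  rw [sh_fst, sh_snd, par_xor, List.mem_map]
  constructor
  · intro h
    refine ⟨_, h, ?_⟩
    simp
  · rintro ⟨q, hq, h⟩
    have h1 : q.1 = p.unpair.1 := congrArg Prod.fst h
    have h2 : (q.2 ^^ par (t q.1)) = par p.unpair.2 := congrArg Prod.snd h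
    have h3 : q = (p.unpair.1, par p.unpair.2 ^^ par (t p.unpair.1)) := by
      refine Prod.ext h1 ?_
      show q.2 = _
      rw [← h2, ← h1]
      simp
    rw [← h3]
    exact hq

/-- `e` is an index of a structure isomorphic to `MS (PL l)` by a computable map -/
def Cls (l : List (ℕ × Bool)) (e : ℕ) : Prop := Idx e ∧ (∀ x y, SI e 0 x y → x = y) ∧
  ∃ h : ℕ ≃ ℕ, Computable h ∧ RedIso pH (SI e) h ∧
    ∀ x, (PL l (el pH x) ↔ SI e 0 (h x) (h x))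

theorem Cls.iso {l : List (ℕ × Bool)} {e : ℕ} (h : Cls l e) :
    Iso (toS (MS (PL l))) (toS (SI e)) := by
  obtain ⟨_, h1, f, _, h2, h3⟩ := h
  rw [iso_toS]
  refine ⟨f, fun i x y => ?_⟩
  by_cases hi : i = 0
  · subst hi
    rw [ms_zero]
    constructor
    · rintro ⟨rfl, h4⟩
      exact (h3 x).1 h4
    · intro h4
      have h5 := f.injective (h1 _ _ h4)
      subst h5
      exact ⟨rfl, (h3 x).2 h4⟩
  · rw [ms_ne hi]
    exact h2 i x y hi

theorem cls_of_iso {l : List (ℕ × Bool)} {e : ℕ} (he : Idx e)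
    (h : Iso (toS (MS (PL l))) (toS (SI e))) :
    ∃ t, Flow pH t ∧ Cls (act t l) e := by
  obtain ⟨f, hf⟩ := iso_toS.1 h
  have h0 : RedIso pH (SI e) f := by
    intro i x y hi
    have := hf i x y
    rw [ms_ne hi] at this
    exact this
  obtain ⟨k, hk, hkc⟩ : ∃ k : ℕ ≃ ℕ, RedIso pH (SI e) k ∧ Computable k :=
    cc p_HT c_prn th_HT (comp_SI he) h0
  have hz : ∀ x y, SI e 0 x y → x = y := by
    intro x y hxy
    have := (hf 0 (f.symm x) (f.symm y)).2 (by simpa using hxy)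
    rw [ms_zero] at this
    exact f.symm.injective this.1
  have ha : RedIso pH (As pH false) (k.trans f.symm) := by
    intro i x y hi
    rw [hk i x y hi]
    have := hf i (f.symm (k x)) (f.symm (k y))
    rw [ms_ne hi] at this
    simp only [Equiv.apply_symm_apply] at this
    exact this.symm
  obtain ⟨t, hF, ht⟩ := aut_shift ha
  have hp : ∀ x, PL (act t l) (el pH x) ↔ SI e 0 (k x) (k x) := by
    intro x
    rw [← pl_sh, ← ht x]
    have := hf 0 (f.symm (k x)) (f.symm (k x))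
    rw [ms_zero] at this
    simp only [Equiv.apply_symm_apply, true_and] at this
    exact this
  exact ⟨t, hF, he, hz, k, hkc, hk, hp⟩

/-! ### the complexity of `Cls` -/

theorem p_PL {α : Type} [Primcodable α] {l : α → List (ℕ × Bool)} {p : α → ℕ}
    (hl : Computable l) (hp : Computable p) : ComputablePred fun a => PL (l a) (p a) := by
  have hpair : Computable fun a => ((p a).unpair.1, par (p a).unpair.2) :=
    c_pair (c_up1 hp) (c_par (c_up2 hp))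
  have h1 : Computable fun a => @List.idxOf (ℕ × Bool) instBEqOfDecidableEq
      ((p a).unpair.1, par (p a).unpair.2) (l a) :=
    (Primrec.list_idxOf.to_comp).comp hpair hl
  have h2 : Computable fun a => (l a).length := Computable.list_length.comp hl
  refine (p_lt h1 h2).of_eq fun a => ?_
  unfold PL
  exact @List.idxOf_lt_length_iff (ℕ × Bool) instBEqOfDecidableEq _ _ _

def ClsP (l : List (ℕ × Bool)) (e k : ℕ) : Prop :=
  (∀ x, ∃ y, EvE k x y) ∧ (∀ y, ∃ x, EvE k x y) ∧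
  (∀ q : ℕ × ℕ × ℕ, EvE k q.1 q.2.2 → EvE k q.2.1 q.2.2 → q.1 = q.2.1) ∧
  (∀ q : ℕ × ℕ × ℕ × ℕ × ℕ, EvE k q.2.1 q.2.2.2.1 → EvE k q.2.2.1 q.2.2.2.2 → q.1 ≠ 0 →
    (Rel pH false q.1 (el pH q.2.1) (el pH q.2.2.1) ↔ SI e q.1 q.2.2.2.1 q.2.2.2.2)) ∧
  ∀ q : ℕ × ℕ, EvE k q.1 q.2 → (PL l (el pH q.1) ↔ SI e 0 q.2 q.2)

theorem cls_iff' {l : List (ℕ × Bool)} {e : ℕ} : Cls l e ↔
    Idx e ∧ (∀ q : ℕ × ℕ, SI e 0 q.1 q.2 → q.1 = q.2) ∧ ∃ k, ClsP l e k := by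
  constructor
  · rintro ⟨h1, h2, f, hfc, h3, h4⟩
    obtain ⟨c, hc⟩ := Code.exists_code.1 (Partrec.nat_iff.1 hfc.partrec)
    have hev : ∀ x y, EvE (encode c) x y ↔ f x = y := by
      intro x y
      unfold EvE
      rw [ofNat_encode, hc]
      exact Part.some_inj
    refine ⟨h1, fun q => h2 q.1 q.2, encode c, fun x => ⟨f x, (hev _ _).2 rfl⟩,
      fun y => ⟨f.symm y, (hev _ _).2 (by simp)⟩, fun q hq1 hq2 => ?_,
      fun q hq1 hq2 hq3 => ?_, fun q hq => ?_⟩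
    · rw [hev] at hq1 hq2
      exact f.injective (hq1.trans hq2.symm)
    · rw [hev] at hq1 hq2
      rw [← hq1, ← hq2]
      exact h3 _ _ _ hq3
    · rw [hev] at hq
      rw [← hq]
      exact h4 _
  · rintro ⟨h1, h2, k, h3, h4, h5, h6, h7⟩
    choose f hf using h3
    have hbij : Function.Bijective f := by
      constructor
      · intro x y hxy
        refine h5 (x, y, f x) (hf x) ?_
        show EvE k y (f x)
        rw [hxy]
        exact hf y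
      · intro y
        obtain ⟨x, hx⟩ := h4 y
        refine ⟨x, ?_⟩
        exact Part.some_inj.1 ((hf x).symm.trans hx)
    refine ⟨h1, fun x y => h2 (x, y), Equiv.ofBijective f hbij, ?_, fun i x y hi => ?_,
      fun x => ?_⟩
    · have h8 : Partrec fun x : ℕ => Code.eval (ofNat Code k) x :=
        Code.eval_part.comp (Computable.const _) Computable.id
      exact h8.of_eq fun x => hf x
    · exact h6 (i, x, y, f x, f y) (hf x) (hf y) hi
    · exact h7 (x, f x) (hf x)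

theorem delta_Cls : Delta11 fun p : ℕ × List (ℕ × Bool) => Cls p.2 p.1 := by
  have hel : Computable (el pH) := c_el c_pH
  have h1 : Delta11 fun p : ℕ × List (ℕ × Bool) => Idx p.1 := delta_Idx.comp (c_fst c_id)
  have h2 : Delta11 fun p : ℕ × List (ℕ × Bool) => ∀ q : ℕ × ℕ, SI p.1 0 q.1 q.2 → q.1 = q.2 := by
    refine Delta11.all' (P := fun r : (ℕ × List (ℕ × Bool)) × ℕ × ℕ =>
      SI r.1.1 0 r.2.1 r.2.2 → r.2.1 = r.2.2) ?_
    exact (delta_SI (c_fst (c_fst c_id)) (c_const 0) (c_fst (c_snd c_id))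
      (c_snd (c_snd c_id))).imp (Delta11.of_computable (p_eq (c_fst (c_snd c_id))
        (c_snd (c_snd c_id))))
  have h3 : Delta11 fun r : (ℕ × List (ℕ × Bool)) × ℕ => ∀ x, ∃ y, EvE r.2 x y :=
    Delta11.all (P := fun s : ((ℕ × List (ℕ × Bool)) × ℕ) × ℕ => ∃ y, EvE s.1.2 s.2 y)
      (Delta11.ex (P := fun s : (((ℕ × List (ℕ × Bool)) × ℕ) × ℕ) × ℕ => EvE s.1.1.2 s.1.2 s.2)
        (delta_EvE (c_snd (c_fst (c_fst c_id))) (c_snd (c_fst c_id)) (c_snd c_id)))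
  have h4 : Delta11 fun r : (ℕ × List (ℕ × Bool)) × ℕ => ∀ y, ∃ x, EvE r.2 x y :=
    Delta11.all (P := fun s : ((ℕ × List (ℕ × Bool)) × ℕ) × ℕ => ∃ x, EvE s.1.2 x s.2)
      (Delta11.ex (P := fun s : (((ℕ × List (ℕ × Bool)) × ℕ) × ℕ) × ℕ => EvE s.1.1.2 s.2 s.1.2)
        (delta_EvE (c_snd (c_fst (c_fst c_id))) (c_snd c_id) (c_snd (c_fst c_id))))
  have h5 : Delta11 fun r : (ℕ × List (ℕ × Bool)) × ℕ => ∀ q : ℕ × ℕ × ℕ,
      EvE r.2 q.1 q.2.2 → EvE r.2 q.2.1 q.2.2 → q.1 = q.2.1 := by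
    refine Delta11.all' (P := fun s : ((ℕ × List (ℕ × Bool)) × ℕ) × ℕ × ℕ × ℕ =>
      EvE s.1.2 s.2.1 s.2.2.2 → EvE s.1.2 s.2.2.1 s.2.2.2 → s.2.1 = s.2.2.1) ?_
    have hk : Computable fun s : ((ℕ × List (ℕ × Bool)) × ℕ) × ℕ × ℕ × ℕ => s.1.2 :=
      c_snd (c_fst c_id)
    have ha : Computable fun s : ((ℕ × List (ℕ × Bool)) × ℕ) × ℕ × ℕ × ℕ => s.2.1 :=
      c_fst (c_snd c_id)
    have hb : Computable fun s : ((ℕ × List (ℕ × Bool)) × ℕ) × ℕ × ℕ × ℕ => s.2.2.1 :=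
      c_fst (c_snd (c_snd c_id))
    have hc : Computable fun s : ((ℕ × List (ℕ × Bool)) × ℕ) × ℕ × ℕ × ℕ => s.2.2.2 :=
      c_snd (c_snd (c_snd c_id))
    exact (delta_EvE hk ha hc).imp ((delta_EvE hk hb hc).imp
      (Delta11.of_computable (p_eq ha hb)))
  have h6 : Delta11 fun r : (ℕ × List (ℕ × Bool)) × ℕ => ∀ q : ℕ × ℕ × ℕ × ℕ × ℕ,
      EvE r.2 q.2.1 q.2.2.2.1 → EvE r.2 q.2.2.1 q.2.2.2.2 → q.1 ≠ 0 →
      (Rel pH false q.1 (el pH q.2.1) (el pH q.2.2.1) ↔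
        SI r.1.1 q.1 q.2.2.2.1 q.2.2.2.2) := by
    refine Delta11.all' (P := fun s : ((ℕ × List (ℕ × Bool)) × ℕ) × ℕ × ℕ × ℕ × ℕ × ℕ =>
      EvE s.1.2 s.2.2.1 s.2.2.2.2.1 → EvE s.1.2 s.2.2.2.1 s.2.2.2.2.2 → s.2.1 ≠ 0 →
      (Rel pH false s.2.1 (el pH s.2.2.1) (el pH s.2.2.2.1) ↔
        SI s.1.1.1 s.2.1 s.2.2.2.2.1 s.2.2.2.2.2)) ?_
    have hk : Computable fun s : ((ℕ × List (ℕ × Bool)) × ℕ) × ℕ × ℕ × ℕ × ℕ × ℕ => s.1.2 :=
      c_snd (c_fst c_id)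
    have he : Computable fun s : ((ℕ × List (ℕ × Bool)) × ℕ) × ℕ × ℕ × ℕ × ℕ × ℕ => s.1.1.1 :=
      c_fst (c_fst (c_fst c_id))
    have hi : Computable fun s : ((ℕ × List (ℕ × Bool)) × ℕ) × ℕ × ℕ × ℕ × ℕ × ℕ => s.2.1 :=
      c_fst (c_snd c_id)
    have hx : Computable fun s : ((ℕ × List (ℕ × Bool)) × ℕ) × ℕ × ℕ × ℕ × ℕ × ℕ => s.2.2.1 :=
      c_fst (c_snd (c_snd c_id))
    have hy : Computable fun s : ((ℕ × List (ℕ × Bool)) × ℕ) × ℕ × ℕ × ℕ × ℕ × ℕ => s.2.2.2.1 :=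
      c_fst (c_snd (c_snd (c_snd c_id)))
    have hx' : Computable fun s : ((ℕ × List (ℕ × Bool)) × ℕ) × ℕ × ℕ × ℕ × ℕ × ℕ =>
        s.2.2.2.2.1 := c_fst (c_snd (c_snd (c_snd (c_snd c_id))))
    have hy' : Computable fun s : ((ℕ × List (ℕ × Bool)) × ℕ) × ℕ × ℕ × ℕ × ℕ × ℕ =>
        s.2.2.2.2.2 := c_snd (c_snd (c_snd (c_snd (c_snd c_id))))
    have hR : ComputablePred fun s : ((ℕ × List (ℕ × Bool)) × ℕ) × ℕ × ℕ × ℕ × ℕ × ℕ =>
        Rel pH false s.2.1 (el pH s.2.2.1) (el pH s.2.2.2.1) :=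
      computablePred_comp (P := fun q : ℕ × ℕ × ℕ => Rel pH false q.1 q.2.1 q.2.2)
        (p_rel c_pH false) (c_pair hi (c_pair (hel.comp hx) (hel.comp hy)))
    exact (delta_EvE hk hx hx').imp ((delta_EvE hk hy hy').imp
      ((Delta11.of_computable (p_not (p_eq hi (c_const 0)))).imp
        ((Delta11.of_computable hR).iff (delta_SI he hi hx' hy'))))
  have h7 : Delta11 fun r : (ℕ × List (ℕ × Bool)) × ℕ => ∀ q : ℕ × ℕ,
      EvE r.2 q.1 q.2 → (PL r.1.2 (el pH q.1) ↔ SI r.1.1 0 q.2 q.2) := by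
    refine Delta11.all' (P := fun s : ((ℕ × List (ℕ × Bool)) × ℕ) × ℕ × ℕ =>
      EvE s.1.2 s.2.1 s.2.2 → (PL s.1.1.2 (el pH s.2.1) ↔
        SI s.1.1.1 0 s.2.2 s.2.2)) ?_
    have hk : Computable fun s : ((ℕ × List (ℕ × Bool)) × ℕ) × ℕ × ℕ => s.1.2 :=
      c_snd (c_fst c_id)
    have he : Computable fun s : ((ℕ × List (ℕ × Bool)) × ℕ) × ℕ × ℕ => s.1.1.1 :=
      c_fst (c_fst (c_fst c_id))
    have hu : Computable fun s : ((ℕ × List (ℕ × Bool)) × ℕ) × ℕ × ℕ => s.1.1.2 :=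
      c_snd (c_fst (c_fst c_id))
    have hx : Computable fun s : ((ℕ × List (ℕ × Bool)) × ℕ) × ℕ × ℕ => s.2.1 :=
      c_fst (c_snd c_id)
    have hx' : Computable fun s : ((ℕ × List (ℕ × Bool)) × ℕ) × ℕ × ℕ => s.2.2 :=
      c_snd (c_snd c_id)
    have hP : ComputablePred fun s : ((ℕ × List (ℕ × Bool)) × ℕ) × ℕ × ℕ =>
        PL s.1.1.2 (el pH s.2.1) :=
      p_PL hu (hel.comp hx)
    exact (delta_EvE hk hx hx').imp ((Delta11.of_computable hP).iff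
      (delta_SI he (c_const 0) hx' hx'))
  have h8 : Delta11 fun r : (ℕ × List (ℕ × Bool)) × ℕ => ClsP r.1.2 r.1.1 r.2 :=
    h3.and (h4.and (h5.and (h6.and h7)))
  have h9 : Delta11 fun p : ℕ × List (ℕ × Bool) => ∃ k, ClsP p.2 p.1 k :=
    Delta11.ex (P := fun r : (ℕ × List (ℕ × Bool)) × ℕ => ClsP r.1.2 r.1.1 r.2) h8
  exact (h1.and (h2.and h9)).of_iff fun p => cls_iff'

end Pool.Agent.Y670.HI
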