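import Mathlib
import Pool.Agent.KS6_49.L8.Y670.HI.Cls

set_option autoImplicit false
set_option maxHeartbeats 400000

namespace Pool.Agent.Y670.HI

open Encodable Denumerable Nat.Partrec Pool.Agent.Helper941 Pool.Agent.Helper941.IsoProb
open Pool.Agent.Helper941.Zeta Pool.Agent.Helper941.Dim Pool.Agent.Helper941.Hyp

/-! ### flows -/

theorem flow_zero : Flow pH fun _ => 0 :=
  ⟨fun v u h => by simp at h, fun u _ => by rw [par_zero]; simp⟩

theorem flow_xor {t t' : ℕ → ℕ} (h : Flow pH t) (h' : Flow pH t') :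
    Flow pH fun v => t v ^^^ t' v := by
  refine ⟨fun v u hb => ?_, fun u hu => ?_⟩
  · simp only [Nat.testBit_xor] at hb
    by_cases h1 : (t v).testBit u = true
    · exact h.child v u h1
    · rw [Bool.not_eq_true] at h1
      rw [h1, Bool.false_xor] at hb
      exact h'.child v u hb
  · show (t (pH u) ^^^ t' (pH u)).testBit u = Pool.Agent.Helper941.Dim.par (t u ^^^ t' u)
    rw [Nat.testBit_xor, par_xor, h.par u hu, h'.par u hu]

/-- the nodes above `u` -/
inductive Sub (u : ℕ) : ℕ → Prop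
  | base : Sub u u
  | step {w : ℕ} : 1 ≤ w → Sub u (pH w) → Sub u w

theorem sub_zero {u : ℕ} (hu : 1 ≤ u) : ¬ Sub u 0 := by
  intro h
  generalize hz : (0 : ℕ) = z at h
  cases h with
  | base => omega
  | step h1 _ => omega

theorem sub_iff {u w : ℕ} (hw : 1 ≤ w) (h : w ≠ u) : Sub u w ↔ Sub u (pH w) := by
  constructor
  · intro h1
    cases h1 with
    | base => exact absurd rfl h
    | step _ h2 => exact h2
  · exact Sub.step hw

open Classical in
/-- the part of a flow above the node `u` -/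
noncomputable def cut (t : ℕ → ℕ) (u : ℕ) : ℕ → ℕ := fun v =>
  if v = 0 then (if par (t u) = true then 2 ^ u else 0) else if Sub u v then t v else 0

theorem cut_flow {t : ℕ → ℕ} (h : Flow pH t) {u : ℕ} (hu : 1 ≤ u) (hp : pH u = 0) :
    Flow pH (cut t u) := by
  have hz : ∀ w, (cut t u 0).testBit w = (decide (w = u) && par (t u)) := by
    intro w
    unfold cut
    rw [if_pos rfl]
    by_cases h1 : par (t u) = true
    · rw [if_pos h1, Nat.testBit_two_pow, h1, Bool.and_true]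
      exact decide_eq_decide.2 eq_comm
    · rw [if_neg h1]
      rw [Bool.not_eq_true] at h1
      rw [h1, Bool.and_false, Nat.zero_testBit]
  have hs : ∀ v, v ≠ 0 → Sub u v → cut t u v = t v := by
    intro v hv hv2
    unfold cut
    rw [if_neg hv, if_pos hv2]
  have hn : ∀ v, v ≠ 0 → ¬ Sub u v → cut t u v = 0 := by
    intro v hv hv2
    unfold cut
    rw [if_neg hv, if_neg hv2]
  refine ⟨fun v w hb => ?_, fun w hw => ?_⟩
  · by_cases hv : v = 0
    · subst hv
      rw [hz] at hb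
      simp only [Bool.and_eq_true, decide_eq_true_eq] at hb
      rw [hb.1]
      exact ⟨hu, hp⟩
    · by_cases h1 : Sub u v
      · rw [hs v hv h1] at hb
        exact h.child v w hb
      · rw [hn v hv h1] at hb
        simp at hb
  · by_cases hwu : w = u
    · subst hwu
      rw [hp, hz, hs w (by omega) Sub.base]
      simp
    · have h1 := sub_iff hw hwu
      by_cases hpw : pH w = 0
      · have h2 : ¬ Sub u w := by
          rw [h1, hpw]
          exact sub_zero hu
        rw [hpw, hz, hn w (by omega) h2, par_zero]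
        simp [hwu]
      · by_cases h3 : Sub u (pH w)
        · rw [hs _ hpw h3, hs w (by omega) (h1.2 h3)]
          exact h.par w hw
        · rw [hn _ hpw h3, hn w (by omega) fun h4 => h3 (h1.1 h4), par_zero]
          simp

theorem cut_par {t : ℕ → ℕ} {u v : ℕ} (hu : 1 ≤ u) (hv : 1 ≤ v) (hp : pH v = 0) :
    par (cut t u v) = (decide (v = u) && par (t u)) := by
  by_cases h : v = u
  · subst h
    unfold cut
    rw [if_neg (by omega), if_pos Sub.base]
    simp
  · have h2 : ¬ Sub u v := by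
      rw [sub_iff hv h, hp]
      exact sub_zero hu
    unfold cut
    rw [if_neg (by omega), if_neg h2, par_zero]
    simp [h]

theorem top_flow (U : Finset ℕ) (hU : ∀ u ∈ U, XB u) :
    ∃ t, Flow pH t ∧ ∀ v, 1 ≤ v → pH v = 0 → par (t v) = decide (v ∈ U) := by
  classical
  induction U using Finset.induction_on with
  | empty => exact ⟨_, flow_zero, fun v _ _ => by rw [par_zero]; simp⟩
  | insert u U hu ih =>
    obtain ⟨t, h1, h2⟩ := ih fun v hv => hU v (Finset.mem_insert_of_mem hv)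
    obtain ⟨h3, h4, t', h5, h6⟩ := hU u (Finset.mem_insert_self _ _)
    refine ⟨_, flow_xor (cut_flow h5 h3 h4) h1, fun v hv hv0 => ?_⟩
    rw [par_xor, cut_par h3 hv hv0, h2 v hv hv0, h6]
    by_cases hvu : v = u
    · subst hvu
      simp [hu]
    · simp [hvu]

/-! ### the classes -/

/-- the class of the structures given by lists of length at most `n` -/
def KL (n : ℕ∞) : Set (Struct ar2) :=
  {S | IsComputable S ∧ ∃ l : List (ℕ × Bool), (l.length : ℕ∞) ≤ n ∧ Iso (toS (MS (PL l))) S}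

theorem kl_class (n : ℕ∞) : IsClass (KL n) := by
  refine ⟨fun A hA => hA.1, ?_⟩
  rintro A ⟨_, l, hl, hA⟩ B hB hAB
  exact ⟨hB, l, hl, hA.trans hAB⟩

theorem act_length (t : ℕ → ℕ) (l : List (ℕ × Bool)) : (act t l).length = l.length := by
  unfold act; rw [List.length_map]

theorem idx_kl (n : ℕ∞) (e : ℕ) : IndexSet (KL n) e ↔
    ∃ l : List (ℕ × Bool), (l.length : ℕ∞) ≤ n ∧ Cls l e := by
  constructor
  · rintro ⟨A, ⟨_, l, hl, hA⟩, he⟩
    obtain ⟨h1, h2⟩ := eq_of_index he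
    rw [h2] at hA
    obtain ⟨t, _, h3⟩ := cls_of_iso h1 hA
    exact ⟨act t l, by rw [act_length]; exact hl, h3⟩
  · rintro ⟨l, hl, h⟩
    exact ⟨toS (SI e), ⟨⟨e, idx_of h.1⟩, l, hl, h.iso⟩, idx_of h.1⟩

theorem p_len (n : ℕ∞) : ComputablePred fun l : List (ℕ × Bool) => (l.length : ℕ∞) ≤ n := by
  cases n with
  | top => exact (p_eq (c_const 0) (c_const 0)).of_eq fun l => by simp
  | coe k => exact (p_le Computable.list_length (c_const k)).of_eq fun l => Nat.cast_le.symm

theorem kl_hyp (n : ℕ∞) : HypClass (KL n) := by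
  refine ⟨kl_class n, ?_⟩
  have h0 : Delta11 fun p : ℕ × List (ℕ × Bool) => ((p.2.length : ℕ∞) ≤ n) :=
    Delta11.of_computable (computablePred_comp (p_len n) (c_snd c_id))
  have h : Delta11 fun e : ℕ => ∃ l : List (ℕ × Bool), (l.length : ℕ∞) ≤ n ∧ Cls l e :=
    Delta11.ex' (P := fun p : ℕ × List (ℕ × Bool) => (p.2.length : ℕ∞) ≤ n ∧ Cls p.2 p.1)
      (h0.and delta_Cls)
  exact h.of_iff (idx_kl n)

/-- two indices of members -/
theorem isoRel_iff {n : ℕ∞} {x y : ℕ} (hx : IndexSet (KL n) x) (hy : IndexSet (KL n) y) :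
    IsoRel (KL n) (x, y) ↔ Iso (toS (SI x)) (toS (SI y)) := by
  obtain ⟨A, hA, hxA⟩ := hx
  obtain ⟨B, hB, hyB⟩ := hy
  obtain ⟨_, h2⟩ := eq_of_index hxA
  obtain ⟨_, h4⟩ := eq_of_index hyB
  constructor
  · rintro ⟨A', _, B', _, hx', hy', h⟩
    rw [(eq_of_index hx').2, (eq_of_index hy').2] at h
    exact h
  · intro h
    rw [← h2, ← h4] at h
    exact ⟨A, hA, B, hB, hxA, hyB, h⟩

theorem rel_left {n : ℕ∞} {x y : ℕ} (h : IsoRel (KL n) (x, y)) :
    IndexSet (KL n) x ∧ IndexSet (KL n) y := by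
  obtain ⟨A, hA, B, hB, hx, hy, _⟩ := h
  exact ⟨⟨A, hA, hx⟩, ⟨B, hB, hy⟩⟩

/-- the translates of a list are finite in number -/
theorem fin_act (l : List (ℕ × Bool)) :
    {l' : List (ℕ × Bool) | ∃ t, Flow pH t ∧ act t l = l'}.Finite := by
  have h1 : {c : List Bool | c.length = l.length}.Finite := List.finite_length_eq Bool l.length
  refine (h1.image fun c => List.zipWith (fun q b => (q.1, q.2 ^^ b)) l c).subset ?_
  rintro l' ⟨t, _, rfl⟩
  refine ⟨l.map fun q => par (t q.1), by simp, ?_⟩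
  show List.zipWith (fun (q : ℕ × Bool) (b : Bool) => (q.1, q.2 ^^ b)) l
    (l.map fun q => par (t q.1)) = act t l
  unfold act
  rw [List.zipWith_map_right]
  induction l with
  | nil => rfl
  | cons a l ih =>
    simp only [List.zipWith_cons_cons, List.map_cons]
    rw [ih (List.finite_length_eq Bool l.length)]

/-- every isomorphism class is hyperarithmetic -/
theorem kl_cells {n : ℕ∞} {y : ℕ} (hy : IndexSet (KL n) y) :
    Delta11 fun x => IsoRel (KL n) (x, y) := by
  obtain ⟨l, hl, h⟩ := (idx_kl n y).1 hy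
  set F := (fin_act l).toFinset with hF
  have key : ∀ x, IsoRel (KL n) (x, y) ↔ ∃ l' ∈ F.toList, Cls l' x := by
    intro x
    constructor
    · intro hx
      have hix := (rel_left hx).1
      have h1 := (isoRel_iff hix hy).1 hx
      have h2 : Idx x := by
        obtain ⟨A, _, hA⟩ := hix
        exact (eq_of_index hA).1
      obtain ⟨t, ht, h3⟩ := cls_of_iso h2 (h.iso.trans h1.symm)
      refine ⟨act t l, ?_, h3⟩
      rw [Finset.mem_toList, hF, Set.Finite.mem_toFinset]
      exact ⟨t, ht, rfl⟩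
    · rintro ⟨l', hl', hc⟩
      rw [Finset.mem_toList, hF, Set.Finite.mem_toFinset] at hl'
      obtain ⟨t, ht, rfl⟩ := hl'
      have hix : IndexSet (KL n) x :=
        (idx_kl n x).2 ⟨act t l, by rw [act_length]; exact hl, hc⟩
      rw [isoRel_iff hix hy]
      have h4 : Iso (toS (MS (PL (act t l)))) (toS (MS (PL l))) := by
        refine iso_toS.2 (ms_iso.2 ⟨t, ht, fun p _ => ?_⟩)
        rw [pl_sh]
      exact (hc.iso.symm.trans h4).trans h.iso
  have h5 : ∀ L : List (List (ℕ × Bool)), Delta11 fun x : ℕ => ∃ l' ∈ L, Cls l' x := by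
    intro L
    induction L with
    | nil =>
      exact (Delta11.of_computable (p_lt (c_const 1) (c_const 0))).of_iff fun x => by simp
    | cons a L ih =>
      have h6 : Delta11 fun x : ℕ => Cls a x :=
        delta_Cls.comp (f := fun x : ℕ => (x, a)) (c_pair c_id (c_const a))
      exact (h6.or ih).of_iff fun x => by simp
  exact (h5 F.toList).of_iff key

/-! ### indices -/

theorem exists_g : ∃ g : List (ℕ × Bool) → ℕ, Computable g ∧
    ∀ l, IndexOf (g l) (toS (MS (PL l))) := by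
  have hP : ComputablePred fun q : List (ℕ × Bool) × ℕ => PL q.1 q.2 :=
    p_PL (c_fst c_id) (c_snd c_id)
  exact exists_idx (β := List (ℕ × Bool)) (M := fun l => MS (PL l)) (ms_comp hP)

theorem g_mem {g : List (ℕ × Bool) → ℕ} (hg : ∀ l, IndexOf (g l) (toS (MS (PL l))))
    {n : ℕ∞} {l : List (ℕ × Bool)} (hl : (l.length : ℕ∞) ≤ n) : IndexSet (KL n) (g l) :=
  ⟨toS (MS (PL l)), ⟨⟨g l, hg l⟩, l, hl, Iso.refl _⟩, hg l⟩

theorem g_rel {g : List (ℕ × Bool) → ℕ} (hg : ∀ l, IndexOf (g l) (toS (MS (PL l))))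
    {n : ℕ∞} {l l' : List (ℕ × Bool)} (hl : (l.length : ℕ∞) ≤ n) (hl' : (l'.length : ℕ∞) ≤ n) :
    IsoRel (KL n) (g l, g l') ↔ ∃ t, Flow pH t ∧ ∀ p, Valid pH p → (PL l p ↔ PL l' (sh t p)) := by
  rw [isoRel_iff (g_mem hg hl) (g_mem hg hl'), ← (eq_of_index (hg l)).2,
    ← (eq_of_index (hg l')).2, iso_toS, ms_iso]

theorem g_y {g : List (ℕ × Bool) → ℕ} (hg : ∀ l, IndexOf (g l) (toS (MS (PL l))))
    {n : ℕ∞} {l l' : List (ℕ × Bool)} (hl : (l.length : ℕ∞) ≤ n) (hl' : (l'.length : ℕ∞) ≤ n)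
    (h : IsoRel (KL n) (g l, g l')) {v : ℕ} (hv : (v, false) ∈ l) (hv' : (v, false) ∉ l') :
    Y v := by
  obtain ⟨t, hF, ht⟩ := (g_rel hg hl hl').1 h
  refine ⟨t, hF, ?_⟩
  have h1 := (ht (Nat.pair v 0) (valid_base _ v)).1 (by
    unfold PL; rw [Nat.unpair_pair, par_zero]; exact hv)
  unfold PL at h1
  rw [sh_fst, sh_snd, par_xor, Nat.unpair_pair, par_zero, Bool.false_xor] at h1
  by_contra h2
  rw [Bool.not_eq_true] at h2
  rw [h2] at h1
  exact hv' h1

theorem not_delta_kl {n : ℕ∞} (hn : 1 ≤ n) : ¬ Delta11 (IsoRel (KL n)) := by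
  intro h
  obtain ⟨g, hg, hgi⟩ := exists_g
  apply not_delta_XB
  have hone : ∀ q : ℕ × Bool, (([q] : List (ℕ × Bool)).length : ℕ∞) ≤ n := fun q => by
    simpa using hn
  have hc : ∀ b : Bool, Computable fun u : ℕ => g [(u, b)] := fun b =>
    hg.comp (Computable.list_cons.comp (c_pair c_id (c_const b)) (c_const []))
  have h1 : Delta11 fun u : ℕ => IsoRel (KL n) (g [(u, false)], g [(u, true)]) :=
    h.comp (c_pair (hc false) (hc true))
  have h2 : Delta11 fun u : ℕ => 1 ≤ u ∧ pH u = 0 :=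
    Delta11.of_computable (p_and (p_le (c_const 1) c_id) (p_eq c_pH (c_const 0)))
  refine (h2.and h1).of_iff fun u => ?_
  have key : IsoRel (KL n) (g [(u, false)], g [(u, true)]) ↔ Y u := by
    constructor
    · intro h3
      exact g_y hgi (hone _) (hone _) h3 (List.mem_singleton.2 rfl) (by simp)
    · rintro ⟨t, hF, ht⟩
      refine (g_rel hgi (hone _) (hone _)).2 ⟨t, hF, fun p _ => ?_⟩
      rw [pl_sh]
      unfold act
      simp [ht]
  rw [key]
  unfold XB Y
  tauto

theorem not_red_all {ar' : ℕ → ℕ} {K : Set (Struct ar')}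
    (hK : ∀ y, IndexSet K y → Delta11 fun x => IsoRel K (x, y)) : ¬ HypRed KA K := by
  rintro ⟨f, hf, h1, h2⟩
  have hP : ComputablePred fun q : ℕ × ℕ => q.2 = q.1 := p_eq (c_snd c_id) (c_fst c_id)
  obtain ⟨g, hg, hgi⟩ := exists_idx (β := ℕ) (M := fun c => MS fun p => p = c)
    (ms_comp (P := fun c : ℕ => fun p => p = c) hP)
  have hidx : ∀ c, IndexSet KA (g c) := fun c => (idx_ka _).2 (eq_of_index (hgi c)).1
  apply not_delta_XA
  have h3 : Delta11 fun x => IsoRel K (f x, f (g (Nat.pair 0 0))) :=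
    Delta11.comp_hyp hf (hK _ (h1 _ (hidx _)))
  have h4 : Computable fun u : ℕ => g (Nat.pair 0 (2 ^ u)) :=
    hg.comp (c_npair (c_const 0) (c_pow c_id))
  refine (h3.comp h4).of_iff fun u => ?_
  rw [← h2 _ _ (hidx _) (hidx _)]
  have key : IsoRel KA (g (Nat.pair 0 (2 ^ u)), g (Nat.pair 0 0)) ↔
      Iso (toS (MS fun p => p = Nat.pair 0 0)) (toS (MS fun p => p = Nat.pair 0 (2 ^ u))) := by
    constructor
    · rintro ⟨A, _, B, _, hx, hy, hAB⟩
      have e1 : A = toS (MS fun p => p = Nat.pair 0 (2 ^ u)) := by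
        rw [(eq_of_index hx).2, ← (eq_of_index (hgi (Nat.pair 0 (2 ^ u)))).2]
      have e2 : B = toS (MS fun p => p = Nat.pair 0 0) := by
        rw [(eq_of_index hy).2, ← (eq_of_index (hgi (Nat.pair 0 0))).2]
      rw [← e1, ← e2]
      exact hAB.symm
    · intro h5
      exact ⟨_, ⟨_, hgi _⟩, _, ⟨_, hgi _⟩, hgi _, hgi _, h5.symm⟩
  rw [key, iso_toS, ms_iso]
  unfold XA
  refine exists_congr fun t => and_congr_right fun hF => ?_
  constructor
  · intro ht p _
    constructor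
    · rintro rfl
      unfold sh
      rw [Nat.unpair_pair, ht, Nat.zero_xor]
    · intro h6
      rw [← sh_sh t p, h6]
      unfold sh
      rw [Nat.unpair_pair, ht, Nat.xor_self]
  · intro ht
    have h6 := (ht (Nat.pair 0 0) (valid_base _ 0)).1 rfl
    unfold sh at h6
    rw [Nat.unpair_pair, Nat.zero_xor] at h6
    exact (Nat.pair_eq_pair.1 h6).2

theorem red_le {m n : ℕ∞} (h : m ≤ n) : HypRed (KL m) (KL n) := by
  have hsub : ∀ x, IndexSet (KL m) x → IndexSet (KL n) x := by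
    rintro x ⟨A, ⟨hA, l, hl, hi⟩, hx⟩
    exact ⟨A, ⟨hA, l, hl.trans h, hi⟩, hx⟩
  refine ⟨id, Delta11.of_computable (p_eq (c_fst c_id) (c_snd c_id)), hsub, fun x y hx hy => ?_⟩
  rw [isoRel_iff hx hy]
  exact (isoRel_iff (hsub x hx) (hsub y hy)).symm

/-- the main point -/
theorem not_red {k : ℕ} {n : ℕ∞} (hk : (k : ℕ∞) < n) : ¬ HypRed (KL n) (KL k) := by
  classical
  rintro ⟨f, hf, h1, h2⟩
  obtain ⟨g, hg, hgi⟩ := exists_g
  have hk1 : ((k + 1 : ℕ) : ℕ∞) ≤ n := by
    push_cast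
    exact Order.add_one_le_of_lt hk
  -- the hyperarithmetic approximation
  let W : ℕ → Prop := fun v => ∃ q : List (ℕ × Bool) × List (ℕ × Bool) × List (ℕ × Bool),
    (q.1.length ≤ k + 1 ∧ q.2.1.length ≤ k + 1 ∧ PL q.1 (Nat.pair v 0) ∧
      ¬ PL q.2.1 (Nat.pair v 0)) ∧ Cls q.2.2 (f (g q.1)) ∧ Cls q.2.2 (f (g q.2.1))
  have hT : Delta11 fun r : ℕ × List (ℕ × Bool) => Cls r.2 (f r.1) := by
    have h3 : Delta11 fun p : (ℕ × List (ℕ × Bool)) × ℕ => f p.1.1 = p.2 ∧ Cls p.1.2 p.2 :=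
      (hf.comp (f := fun p : (ℕ × List (ℕ × Bool)) × ℕ => (p.1.1, p.2))
        (c_pair (c_fst (c_fst c_id)) (c_snd c_id))).and
      (delta_Cls.comp (f := fun p : (ℕ × List (ℕ × Bool)) × ℕ => (p.2, p.1.2))
        (c_pair (c_snd c_id) (c_snd (c_fst c_id))))
    refine h3.ex.of_iff fun r => ⟨fun h => ⟨f r.1, rfl, h⟩, ?_⟩
    rintro ⟨y, h4, h5⟩
    have h4' : f r.1 = y := h4
    rw [h4']
    exact h5
  have hWd : Delta11 W := by
    have hv : Computable fun p : ℕ × (List (ℕ × Bool) × List (ℕ × Bool) × List (ℕ × Bool)) =>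
        Nat.pair p.1 0 := c_npair (c_fst c_id) (c_const 0)
    have ha : Computable fun p : ℕ × (List (ℕ × Bool) × List (ℕ × Bool) × List (ℕ × Bool)) =>
        p.2.1 := c_fst (c_snd c_id)
    have hb : Computable fun p : ℕ × (List (ℕ × Bool) × List (ℕ × Bool) × List (ℕ × Bool)) =>
        p.2.2.1 := c_fst (c_snd (c_snd c_id))
    have hc : Computable fun p : ℕ × (List (ℕ × Bool) × List (ℕ × Bool) × List (ℕ × Bool)) =>
        p.2.2.2 := c_snd (c_snd (c_snd c_id))
    have h3 : Delta11 fun p : ℕ × (List (ℕ × Bool) × List (ℕ × Bool) × List (ℕ × Bool)) =>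
        (p.2.1.length ≤ k + 1 ∧ p.2.2.1.length ≤ k + 1 ∧ PL p.2.1 (Nat.pair p.1 0) ∧
          ¬ PL p.2.2.1 (Nat.pair p.1 0)) :=
      Delta11.of_computable (p_and (p_le (Computable.list_length.comp ha) (c_const (k + 1)))
        (p_and (p_le (Computable.list_length.comp hb) (c_const (k + 1)))
          (p_and (p_PL ha hv) (p_not (p_PL hb hv)))))
    have h4 : Delta11 fun p : ℕ × (List (ℕ × Bool) × List (ℕ × Bool) × List (ℕ × Bool)) =>
        Cls p.2.2.2 (f (g p.2.1)) :=
      hT.comp (f := fun p : ℕ × (List (ℕ × Bool) × List (ℕ × Bool) × List (ℕ × Bool)) =>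
        (g p.2.1, p.2.2.2)) (c_pair (hg.comp ha) hc)
    have h5 : Delta11 fun p : ℕ × (List (ℕ × Bool) × List (ℕ × Bool) × List (ℕ × Bool)) =>
        Cls p.2.2.2 (f (g p.2.2.1)) :=
      hT.comp (f := fun p : ℕ × (List (ℕ × Bool) × List (ℕ × Bool) × List (ℕ × Bool)) =>
        (g p.2.2.1, p.2.2.2)) (c_pair (hg.comp hb) hc)
    exact Delta11.ex' (P := fun p : ℕ × (List (ℕ × Bool) × List (ℕ × Bool) × List (ℕ × Bool)) =>
      (p.2.1.length ≤ k + 1 ∧ p.2.2.1.length ≤ k + 1 ∧ PL p.2.1 (Nat.pair p.1 0) ∧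
          ¬ PL p.2.2.1 (Nat.pair p.1 0)) ∧ Cls p.2.2.2 (f (g p.2.1)) ∧
        Cls p.2.2.2 (f (g p.2.2.1))) (h3.and (h4.and h5))
  have hlen : ∀ l : List (ℕ × Bool), l.length ≤ k + 1 → (l.length : ℕ∞) ≤ n := fun l hl =>
    (Nat.cast_le.2 hl).trans hk1
  have hpl : ∀ (l : List (ℕ × Bool)) (v : ℕ), PL l (Nat.pair v 0) ↔ (v, false) ∈ l := by
    intro l v
    unfold PL
    rw [Nat.unpair_pair, par_zero]
  have hWY : ∀ v, W v → Y v := by
    rintro v ⟨⟨l, l', s⟩, ⟨ha, hb, hc, hd⟩, he, he'⟩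
    refine g_y hgi (hlen l ha) (hlen l' hb) ?_ ((hpl l v).1 hc) fun h => hd ((hpl l' v).2 h)
    rw [h2 _ _ (g_mem hgi (hlen l ha)) (g_mem hgi (hlen l' hb)),
      isoRel_iff (h1 _ (g_mem hgi (hlen l ha))) (h1 _ (g_mem hgi (hlen l' hb)))]
    exact he.iso.symm.trans he'.iso
  -- infinitely many nodes remain
  have hinf : {v | XB v ∧ ¬ W v}.Infinite := by
    intro hfin
    apply not_delta_XB
    have h3 : ∀ L : List ℕ, Delta11 fun v : ℕ => v ∈ L := by
      intro L
      induction L with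
      | nil => exact (Delta11.of_computable (p_lt (c_const 1) (c_const 0))).of_iff fun x => by simp
      | cons a L ih =>
        exact ((Delta11.of_computable (p_eq c_id (c_const a))).or ih).of_iff fun x => by simp
    have h4 : Delta11 fun u : ℕ => 1 ≤ u ∧ pH u = 0 :=
      Delta11.of_computable (p_and (p_le (c_const 1) c_id) (p_eq c_pH (c_const 0)))
    refine ((h4.and hWd).or (h3 hfin.toFinset.toList)).of_iff fun v => ?_
    rw [Finset.mem_toList, Set.Finite.mem_toFinset]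
    constructor
    · intro hv
      by_cases hw : W v
      · exact Or.inl ⟨⟨hv.1, hv.2.1⟩, hw⟩
      · exact Or.inr ⟨hv, hw⟩
    · rintro (⟨⟨h5, h6⟩, h7⟩ | ⟨h5, _⟩)
      · exact ⟨h5, h6, hWY v h7⟩
      · exact h5
  obtain ⟨U, hUs, hUc⟩ := hinf.exists_subset_card_eq (k + 1)
  have hUX : ∀ u ∈ U, XB u := fun u hu => (hUs hu).1
  have hUW : ∀ u ∈ U, ¬ W u := fun u hu => (hUs hu).2
  let ls : Finset ℕ → List (ℕ × Bool) := fun S => U.toList.map fun u => (u, decide (u ∈ S))
  have hll : ∀ S, (ls S).length = k + 1 := fun S => by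
    show (U.toList.map fun u => (u, decide (u ∈ S))).length = k + 1
    rw [List.length_map, Finset.length_toList, hUc]
  have hln : ∀ S, ((ls S).length : ℕ∞) ≤ n := fun S => hlen _ (hll S).le
  obtain ⟨s, hsl, hs⟩ := (idx_kl k _).1 (h1 _ (g_mem hgi (hln ∅)))
  have hsk : s.length ≤ k := Nat.cast_le.1 hsl
  have hex : ∀ S, S ⊆ U → ∃ t, Cls (act t s) (f (g (ls S))) := by
    intro S hS
    obtain ⟨t, hF, ht⟩ := top_flow S fun u hu => hUX u (hS hu)
    have h3 : IsoRel (KL n) (g (ls ∅), g (ls S)) := by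
      refine (g_rel hgi (hln _) (hln _)).2 ⟨t, hF, fun p _ => ?_⟩
      rw [pl_sh]
      have h4 : act t (ls S) = ls ∅ := by
        show act t (U.toList.map fun u => (u, decide (u ∈ S))) =
          U.toList.map fun u => (u, decide (u ∈ (∅ : Finset ℕ)))
        unfold act
        rw [List.map_map]
        refine List.map_congr_left fun u hu => ?_
        obtain ⟨h5, h6, _⟩ := hUX u (Finset.mem_toList.1 hu)
        simp [ht u h5 h6]
      rw [h4]
    rw [h2 _ _ (g_mem hgi (hln _)) (g_mem hgi (hln _)),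
      isoRel_iff (h1 _ (g_mem hgi (hln _))) (h1 _ (g_mem hgi (hln _)))] at h3
    have h4 : Idx (f (g (ls S))) := by
      obtain ⟨A, _, hA⟩ := h1 _ (g_mem hgi (hln S))
      exact (eq_of_index hA).1
    obtain ⟨t', _, h5⟩ := cls_of_iso h4 (hs.iso.trans h3)
    exact ⟨t', h5⟩
  choose! T hTc using hex
  have hsub : ∀ S S', S ⊆ U → S' ⊆ U → act (T S) s = act (T S') s → S' ⊆ S := by
    intro S S' hS hS' hact v hv
    by_contra hvS
    apply hUW v (hS' hv)
    refine ⟨(ls S, ls S', act (T S) s), ⟨(hll S).le, (hll S').le, (hpl _ _).2 ?_, ?_⟩,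
      hTc S hS, ?_⟩
    · exact List.mem_map.2 ⟨v, Finset.mem_toList.2 (hS' hv), by simp [hvS]⟩
    · intro h3
      obtain ⟨w, _, hw⟩ := List.mem_map.1 ((hpl _ _).1 h3)
      have h4 : w = v := congrArg Prod.fst hw
      have h5 : decide (w ∈ S') = false := congrArg Prod.snd hw
      rw [h4, decide_eq_false_iff_not] at h5
      exact h5 hv
    · show Cls (act (T S) s) (f (g (ls S')))
      rw [hact]
      exact hTc S' hS'
  have hcard : (Finset.univ : Finset (Fin s.length → Bool)).card < U.powerset.card := by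
    rw [Finset.card_powerset, hUc, Finset.card_univ, Fintype.card_fun, Fintype.card_bool,
      Fintype.card_fin]
    exact Nat.pow_lt_pow_right (by norm_num) (by omega)
  obtain ⟨S, hS, S', hS', hne, hΦ⟩ := Finset.exists_ne_map_eq_of_card_lt_of_maps_to hcard
    (f := fun S (i : Fin s.length) => par (T S (s.get i).1)) fun _ _ => Finset.mem_coe.2 (Finset.mem_univ _)
  rw [Finset.mem_powerset] at hS hS'
  have hact : act (T S) s = act (T S') s := by
    unfold act
    refine List.map_congr_left fun q hq => ?_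
    obtain ⟨i, hi⟩ := List.mem_iff_get.1 hq
    have := congrFun hΦ i
    simp only [hi] at this
    rw [this]
  exact hne (Finset.Subset.antisymm (hsub S' S hS' hS hact.symm) (hsub S S' hS hS' hact))

theorem main : ∃ ar : ℕ → ℕ, Computable ar ∧ ∃ K : ℕ∞ → Set (Struct ar),
    (∀ n, HypClass (K n) ∧ ¬ Delta11 (IsoRel (K n)) ∧ ¬ IsComplete (K n) ∧
      ∀ y, IndexSet (K n) y → Delta11 fun x => IsoRel (K n) (x, y)) ∧
    (∀ m n, m < n → K m ⊆ K n ∧ HypRed (K m) (K n) ∧ ¬ HypRed (K n) (K m)) := by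
  refine ⟨ar2, Computable.const 2, fun n => KL (n + 1), fun n => ⟨kl_hyp _, not_delta_kl ?_,
    fun h => not_red_all (fun y hy => kl_cells hy) (h ar2 (Computable.const 2) KA ka_hyp),
    fun y hy => kl_cells hy⟩, fun m n hmn => ⟨?_, ?_, ?_⟩⟩
  · exact le_add_self
  · rintro S ⟨hS, l, hl, hi⟩
    exact ⟨hS, l, hl.trans (add_le_add_left hmn.le 1), hi⟩
  · exact red_le (add_le_add_left hmn.le 1)
  · cases m with
    | top => exact absurd hmn (not_lt.2 le_top)
    | coe k =>
      have h3 : ((k + 1 : ℕ) : ℕ∞) < n + 1 := by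
        have h4 : ((k : ℕ) : ℕ∞) + 1 ≤ n := Order.add_one_le_of_lt hmn
        cases n with
        | top => exact_mod_cast ENat.natCast_lt_top _
        | coe j =>
          have h5 : k + 1 ≤ j := by exact_mod_cast h4
          have h6 : k + 1 < j + 1 := by omega
          exact_mod_cast h6
      have h7 := not_red h3
      have h8 : ((k : ℕ) : ℕ∞) + 1 = ((k + 1 : ℕ) : ℕ∞) := by push_cast; rfl
      show ¬ HypRed (KL (n + 1)) (KL ((k : ℕ∞) + 1))
      rw [h8]
      exact h7

end Pool.Agent.Y670.HI
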